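import Pool.Agent.V111.B6Q

/-!
A strongly indecomposable torsion-free abelian group of rank six whose endomorphism ring is
noncommutative and centrally essential.
-/

namespace Pool.Agent.Results.MP_7bf690_al.RankSix

open Pool.Agent.V111 Pool.Agent.V111.Realize TensorProduct

/-- `A` is torsion-free. -/
def TorsionFree (A : Type) [AddCommGroup A] : Prop := ∀ (n : ℕ) (a : A), 0 < n → n • a = 0 → a = 0

/-- `A` is strongly indecomposable: `A ≠ 0`, and whenever `n A ⊆ B ⊕ C` for some `n > 0` and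
subgroups `B`, `C` (with zero intersection), one of `B`, `C` is zero. -/
def StronglyIndecomposable (A : Type) [AddCommGroup A] : Prop :=
  (∃ a : A, a ≠ 0) ∧ ∀ (B C : AddSubgroup A) (n : ℕ), 0 < n → B ⊓ C = ⊥ →
    (∀ a : A, n • a ∈ B ⊔ C) → B = ⊥ ∨ C = ⊥

/-! ### The group, for an algebra with enough square-zero elements -/

variable {T : Type} [Ring T] [Algebra ℚ T]

/-- The group of the `v` with `v (ℓ - c) ∈ R_(ℓ)` for every prime `ℓ` and the element `c` attached
to it. -/
noncomputable def grp (R : Subring T) (c : ℕ → T) : AddSubgroup T where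
  carrier := {v | ∀ i, Loc R (pr i) (v * ((pr i : T) - c i))}
  zero_mem' := by
    intro i
    rw [zero_mul]
    exact Loc.of_mem (pr_prime i) R.zero_mem
  add_mem' := by
    intro v w hv hw i
    rw [add_mul]
    exact (hv i).add (pr_prime i) (hw i)
  neg_mem' := by
    intro v hv i
    rw [neg_mul]
    exact (hv i).neg

/-- The hypotheses on the data. -/
structure Data (R : Subring T) (c : ℕ → T) : Prop where
  mem : ∀ i, c i ∈ R
  sq : ∀ i, c i * c i = 0
  mult : ∀ t : T, ∃ n : ℕ, 0 < n ∧ (n : T) * t ∈ R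
  red : ∀ S : Set ℕ, S.Infinite → ∀ t : T,
    (∀ i ∈ S, ∃ m : ℕ, ¬ pr i ∣ m ∧ ∃ s ∈ R, (m : T) * t = (pr i : T) * s) → t = 0
  gen : ∀ r ∈ R, r ∈ AddSubgroup.closure ({1} ∪ Set.range c)
  inf : ∀ i, {j | c j = c i}.Infinite

variable {R : Subring T} {c : ℕ → T}

theorem Data.mem_grp (D : Data R c) {r : T} (hr : r ∈ R) : r ∈ grp R c := fun i =>
  Loc.of_mem (pr_prime i) (R.mul_mem hr (R.sub_mem (natCast_mem R _) (D.mem i)))

theorem Data.mul_mem_grp {a v : T} (ha : a ∈ R) (hv : v ∈ grp R c) : a * v ∈ grp R c := by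
  intro i
  rw [mul_assoc]
  exact (hv i).mul ha

/-- The elements `(ℓ + c) / ℓ²` belong to the group. -/
theorem Data.u_mem (D : Data R c) (i : ℕ) :
    inv T (pr i) 2 * ((pr i : T) + c i) ∈ grp R c := by
  have h1 : ((pr i : T) + c i) * ((pr i : T) - c i) = ((pr i ^ 2 : ℕ) : T) := by
    rw [add_mul, mul_sub, mul_sub, D.sq i, ← Nat.cast_comm (pr i) (c i), Nat.cast_pow, pow_two]
    abel
  intro j
  by_cases hij : j = i
  · subst hij
    rw [mul_assoc, h1, ← Nat.cast_comm, pow_mul_inv (pr_prime j)]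
    exact Loc.of_mem (pr_prime j) R.one_mem
  · refine ⟨(pr i) ^ 2, ?_, ?_⟩
    · intro h
      have := (Nat.prime_dvd_prime_iff_eq (pr_prime j) (pr_prime i)).mp
        ((pr_prime j).dvd_of_dvd_pow h)
      exact hij (pr_inj this)
    · rw [← mul_assoc, ← mul_assoc, pow_mul_inv (pr_prime i), one_mul]
      exact R.mul_mem (R.add_mem (natCast_mem R _) (D.mem i))
        (R.sub_mem (natCast_mem R _) (D.mem j))

/-- An endomorphism which kills `1` kills every `c i`. -/
theorem Data.kill_c (D : Data R c) (F : AddMonoid.End (grp R c))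
    (h1 : (F ⟨1, D.mem_grp R.one_mem⟩ : T) = 0) (i : ℕ) :
    (F ⟨c i, D.mem_grp (D.mem i)⟩ : T) = 0 := by
  obtain ⟨w, hw⟩ : ∃ w : T, w = (F ⟨c i, D.mem_grp (D.mem i)⟩ : T) := ⟨_, rfl⟩
  rw [← hw]
  obtain ⟨N, hN, hNw⟩ := D.mult w
  -- the divisibility
  have key : ∀ j, c j = c i → ∃ m : ℕ, ¬ pr j ∣ m ∧ ∃ s ∈ R,
      (m : T) * (w * ((pr j : T) - c i)) = ((pr j ^ 2 : ℕ) : T) * s := by
    intro j hj
    obtain ⟨u, hu⟩ : ∃ u : grp R c, (u : T) = inv T (pr j) 2 * ((pr j : T) + c j) :=
      ⟨⟨_, D.u_mem j⟩, rfl⟩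
    have h2 : (pr j ^ 2) • u = (pr j) • (⟨1, D.mem_grp R.one_mem⟩ : grp R c) +
        ⟨c i, D.mem_grp (D.mem i)⟩ := by
      apply Subtype.ext
      rw [AddSubgroup.coe_nsmul, hu, AddSubgroup.coe_add, AddSubgroup.coe_nsmul, nsmul_eq_mul,
        nsmul_eq_mul, ← mul_assoc, pow_mul_inv (pr_prime j), one_mul, mul_one, hj]
    have h3 : ((pr j ^ 2 : ℕ) : T) * (F u : T) = w := by
      have h4 : F ((pr j ^ 2) • u) = (pr j) • F ⟨1, D.mem_grp R.one_mem⟩ +
          F ⟨c i, D.mem_grp (D.mem i)⟩ := by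
        rw [h2, map_add, map_nsmul]
      have h5 := congrArg Subtype.val h4
      rw [map_nsmul, AddSubgroup.coe_nsmul, AddSubgroup.coe_add, AddSubgroup.coe_nsmul, h1,
        smul_zero, zero_add, nsmul_eq_mul, ← hw] at h5
      exact h5
    obtain ⟨m, hm, hms⟩ := (F u).2 j
    refine ⟨m, hm, _, hms, ?_⟩
    rw [← h3, ← hj, mul_assoc ((pr j ^ 2 : ℕ) : T)]
    simp only [← nsmul_eq_mul]
    exact smul_comm _ _ _
  have hfin : {j | pr j ∣ N}.Finite := by
    apply Set.Finite.of_finite_image (f := pr)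
    · apply (Set.finite_Icc 0 N).subset
      rintro _ ⟨j, hj, rfl⟩
      exact ⟨Nat.zero_le _, Nat.le_of_dvd hN hj⟩
    · intro a _ b _ h
      exact pr_inj h
  have hS : ({j | c j = c i} \ {j | pr j ∣ N}).Infinite := (D.inf i).sdiff hfin
  have hwc : w * c i = 0 := by
    apply D.red _ hS
    rintro j ⟨hj, hjN⟩
    obtain ⟨m, hm, s, hs, hms⟩ := key j hj
    refine ⟨m * N, ?_, (m : T) * ((N : T) * w) - (pr j : T) * ((N : T) * s), ?_, ?_⟩
    · intro h
      rcases (Nat.Prime.dvd_mul (pr_prime j)).mp h with h | h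
      · exact hm h
      · exact hjN h
    · exact R.sub_mem (R.mul_mem (natCast_mem R _) hNw)
        (R.mul_mem (natCast_mem R _) (R.mul_mem (natCast_mem R _) hs))
    · have e1 : (m : T) * (w * c i) = (m : T) * (w * (pr j : T)) - ((pr j ^ 2 : ℕ) : T) * s := by
        rw [← hms]
        noncomm_ring
      have e2 : w * (pr j : T) = (pr j : T) * w := (Nat.cast_comm (pr j) w).symm
      have e4 : ((m * N : ℕ) : T) * (w * c i) = (N : T) * ((m : T) * (w * c i)) := by
        simp only [← nsmul_eq_mul]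
        module
      rw [e4, e1, e2]
      simp only [← nsmul_eq_mul]
      module
  apply D.red _ hS
  rintro j ⟨hj, hjN⟩
  obtain ⟨m, hm, s, hs, hms⟩ := key j hj
  refine ⟨m, hm, s, hs, ?_⟩
  apply natCast_cancel (pr_prime j).pos
  rw [mul_sub, hwc, sub_zero, Nat.cast_pow, pow_two, mul_assoc] at hms
  rw [← hms, ← Nat.cast_comm (pr j) w]
  simp only [← nsmul_eq_mul]
  module

/-- An endomorphism which kills `1` is zero. -/
theorem Data.kill (D : Data R c) (F : AddMonoid.End (grp R c))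
    (h1 : (F ⟨1, D.mem_grp R.one_mem⟩ : T) = 0) (v : grp R c) : (F v : T) = 0 := by
  have hR : ∀ r (hr : r ∈ R), (F ⟨r, D.mem_grp hr⟩ : T) = 0 := by
    have hle : ∀ r ∈ AddSubgroup.closure ({1} ∪ Set.range c),
        ∃ hr : r ∈ grp R c, (F ⟨r, hr⟩ : T) = 0 := by
      intro r hr
      induction hr using AddSubgroup.closure_induction with
      | mem r hr =>
        rcases hr with rfl | ⟨i, rfl⟩
        · exact ⟨_, h1⟩
        · exact ⟨_, D.kill_c F h1 i⟩
      | zero =>
        refine ⟨(grp R c).zero_mem, ?_⟩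
        have : (⟨0, (grp R c).zero_mem⟩ : grp R c) = 0 := rfl
        rw [this, map_zero]; rfl
      | add r s _ _ hr hs =>
        obtain ⟨hr1, hr2⟩ := hr
        obtain ⟨hs1, hs2⟩ := hs
        refine ⟨(grp R c).add_mem hr1 hs1, ?_⟩
        have : (⟨r + s, (grp R c).add_mem hr1 hs1⟩ : grp R c) = ⟨r, hr1⟩ + ⟨s, hs1⟩ := rfl
        rw [this, map_add, AddSubgroup.coe_add, hr2, hs2, add_zero]
      | neg r _ hr =>
        obtain ⟨hr1, hr2⟩ := hr
        refine ⟨(grp R c).neg_mem hr1, ?_⟩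
        have : (⟨-r, (grp R c).neg_mem hr1⟩ : grp R c) = -⟨r, hr1⟩ := rfl
        rw [this, map_neg, AddSubgroup.coe_neg, hr2, neg_zero]
    intro r hr
    obtain ⟨_, h⟩ := hle r (D.gen r hr)
    exact h
  obtain ⟨n, hn, hnv⟩ := D.mult v
  apply natCast_cancel hn
  have h2 : n • v = ⟨(n : T) * v, D.mem_grp hnv⟩ := by
    apply Subtype.ext
    rw [AddSubgroup.coe_nsmul, nsmul_eq_mul]
  have h3 := hR _ hnv
  rw [← h2, map_nsmul, AddSubgroup.coe_nsmul, nsmul_eq_mul] at h3
  rw [h3, mul_zero]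

/-- Every endomorphism is a left multiplication. -/
theorem Data.exists_mul (D : Data R c) (F : AddMonoid.End (grp R c)) :
    ∃ a : T, ∀ v : grp R c, (F v : T) = a * v := by
  obtain ⟨a, ha⟩ : ∃ a : T, a = (F ⟨1, D.mem_grp R.one_mem⟩ : T) := ⟨_, rfl⟩
  obtain ⟨n, hn, hna⟩ := D.mult a
  refine ⟨a, fun v => ?_⟩
  -- `n F` minus the multiplication by `n a`
  let L : AddMonoid.End (grp R c) :=
    { toFun := fun v => ⟨((n : T) * a) * v, Data.mul_mem_grp hna v.2⟩
      map_zero' := by apply Subtype.ext; simp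
      map_add' := by intro v w; apply Subtype.ext; simp [mul_add] }
  have hL : ∀ v, (L v : T) = ((n : T) * a) * v := fun _ => rfl
  have h1 : ∀ v, ((n • F - L : AddMonoid.End (grp R c)) v : T) = (n : T) * (F v : T) - L v := by
    intro v
    change ((n • F v - L v : grp R c) : T) = _
    rw [AddSubgroup.coe_sub, AddSubgroup.coe_nsmul, nsmul_eq_mul]
  have h2 := D.kill (n • F - L) (by rw [h1, hL, ← ha, mul_one, sub_self]) v
  rw [h1, hL, sub_eq_zero, mul_assoc] at h2
  exact natCast_cancel hn h2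

/-- The ring of the elements of `T` which act on the group. -/
noncomputable def mulRing (R : Subring T) (c : ℕ → T) : Subring T where
  carrier := {a | ∀ v ∈ grp R c, a * v ∈ grp R c}
  one_mem' := by intro v hv; simpa using hv
  zero_mem' := by
    intro v _
    simp only [zero_mul]
    exact (grp R c).zero_mem
  mul_mem' := by
    intro a b ha hb v hv
    have := ha _ (hb v hv)
    simpa only [mul_assoc] using this
  add_mem' := by
    intro a b ha hb v hv
    have := (grp R c).add_mem (ha v hv) (hb v hv)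
    simpa only [add_mul] using this
  neg_mem' := by
    intro a ha v hv
    have := (grp R c).neg_mem (ha v hv)
    simpa only [neg_mul] using this

/-- A left multiplication as an endomorphism. -/
noncomputable def mulOne (R : Subring T) (c : ℕ → T) (a : mulRing R c) :
    AddMonoid.End (grp R c) where
  toFun := fun v => ⟨(a : T) * v, a.2 v v.2⟩
  map_zero' := by apply Subtype.ext; simp
  map_add' := by
    intro v w
    apply Subtype.ext
    simp [mul_add]

theorem mulOne_apply (a : mulRing R c) (v : grp R c) :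
    (mulOne R c a v : T) = (a : T) * v := rfl

/-- Left multiplications as endomorphisms. -/
noncomputable def mulHom (R : Subring T) (c : ℕ → T) :
    mulRing R c →+* AddMonoid.End (grp R c) where
  toFun a := mulOne R c a
  map_one' := by
    apply DFunLike.ext
    intro w
    apply Subtype.ext
    rw [mulOne_apply, OneMemClass.coe_one, one_mul]
    rfl
  map_zero' := by
    apply DFunLike.ext
    intro w
    apply Subtype.ext
    rw [mulOne_apply, ZeroMemClass.coe_zero, zero_mul]
    rfl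
  map_mul' a b := by
    apply DFunLike.ext
    intro w
    apply Subtype.ext
    change _ = (mulOne R c a (mulOne R c b w) : T)
    rw [mulOne_apply, mulOne_apply, mulOne_apply, MulMemClass.coe_mul, mul_assoc]
  map_add' a b := by
    apply DFunLike.ext
    intro w
    apply Subtype.ext
    change _ = (mulOne R c a w : T) + (mulOne R c b w : T)
    rw [mulOne_apply, mulOne_apply, mulOne_apply, AddMemClass.coe_add, add_mul]

theorem Data.bijective (D : Data R c) : Function.Bijective (mulHom R c) := by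
  obtain ⟨e, he⟩ : ∃ e : grp R c, (e : T) = 1 := ⟨⟨1, D.mem_grp R.one_mem⟩, rfl⟩
  constructor
  · intro a b h
    have h1 : (mulHom R c a e : T) = mulHom R c b e := by rw [h]
    change (a : T) * (e : T) = (b : T) * (e : T) at h1
    rw [he, mul_one, mul_one] at h1
    exact Subtype.ext h1
  · intro F
    obtain ⟨a, ha⟩ := D.exists_mul F
    refine ⟨⟨a, fun v hv => ?_⟩, ?_⟩
    · have := ha ⟨v, hv⟩
      simp only at this
      rw [← this]
      exact (F ⟨v, hv⟩).2
    · apply DFunLike.ext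
      intro w
      apply Subtype.ext
      rw [ha]
      rfl

/-! ### The example -/

/-- The five basis elements of the radical. -/
def basis (i : Fin 5) : B6 ℚ :=
  ![⟨0, 1, 0, 0, 0, 0⟩, ⟨0, 0, 1, 0, 0, 0⟩, ⟨0, 0, 0, 1, 0, 0⟩, ⟨0, 0, 0, 0, 1, 0⟩,
    ⟨0, 0, 0, 0, 0, 1⟩] i

/-- The element attached to the `i`-th prime. -/
def cc (i : ℕ) : B6 ℚ := basis (Fin.ofNat 5 i)

theorem num_eq_zero_of_inf {S : Set ℕ} (hS : S.Infinite) {z : ℤ} (h : ∀ i ∈ S, (pr i : ℤ) ∣ z) :
    z = 0 := by
  by_contra hz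
  apply hS
  apply Set.Finite.of_finite_image (f := pr)
  · apply (Set.finite_Icc 0 z.natAbs).subset
    rintro _ ⟨j, hj, rfl⟩
    refine ⟨Nat.zero_le _, Nat.le_of_dvd (Int.natAbs_pos.mpr hz) ?_⟩
    exact Int.natCast_dvd.mp (h j hj)
  · intro a _ b _ h
    exact pr_inj h

theorem rat_zero_of_inf {S : Set ℕ} (hS : S.Infinite) {q : ℚ}
    (h : ∀ i ∈ S, ∃ m : ℕ, ¬ pr i ∣ m ∧ ∃ z : ℤ, (m : ℚ) * q = (pr i : ℚ) * z) : q = 0 := by
  apply Rat.num_eq_zero.mp
  apply num_eq_zero_of_inf hS
  intro i hi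
  obtain ⟨m, hm, z, hz⟩ := h i hi
  have h2 : (m : ℤ) * q.num = (pr i : ℤ) * (z * q.den) := by
    have h3 : (m : ℚ) * q.num = (pr i : ℚ) * (z * q.den) := by
      have h4 : (q.num : ℚ) = q * q.den := (Rat.mul_den_eq_num q).symm
      rw [h4, ← mul_assoc, hz]; ring
    exact_mod_cast h3
  have hcop : IsCoprime (pr i : ℤ) (m : ℤ) := by
    rw [Nat.isCoprime_iff_coprime]
    exact (Nat.Prime.coprime_iff_not_dvd (pr_prime i)).mpr hm
  exact hcop.dvd_of_dvd_mul_left (Dvd.intro _ h2.symm)

theorem cc_inf (i : ℕ) : {j | cc j = cc i}.Infinite := by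
  apply Set.infinite_of_injective_forall_mem (f := fun k : ℕ => i + 5 * k)
  · intro a b h
    simp only at h
    omega
  · intro k
    simp only [Set.mem_ofPred_eq, cc]
    congr 1
    apply Fin.ext
    simp [Fin.ofNat]

theorem data : Data B6.intB cc where
  mem i := by
    rw [cc]
    generalize Fin.ofNat 5 i = k
    fin_cases k
    · exact ⟨⟨0, 1, 0, 0, 0, 0⟩, by simp [B6.map_apply, basis]⟩
    · exact ⟨⟨0, 0, 1, 0, 0, 0⟩, by simp [B6.map_apply, basis]⟩
    · exact ⟨⟨0, 0, 0, 1, 0, 0⟩, by simp [B6.map_apply, basis]⟩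
    · exact ⟨⟨0, 0, 0, 0, 1, 0⟩, by simp [B6.map_apply, basis]⟩
    · exact ⟨⟨0, 0, 0, 0, 0, 1⟩, by simp [B6.map_apply, basis]⟩
  sq i := by
    rw [cc]
    generalize Fin.ofNat 5 i = k
    fin_cases k <;> ext <;> simp [basis]
  mult t := by
    refine ⟨t.e.den * t.x.den * t.y.den * t.z.den * t.p.den * t.q.den, by positivity, ?_⟩
    rw [B6.natCast_eq]
    refine ⟨⟨t.e.num * t.x.den * t.y.den * t.z.den * t.p.den * t.q.den,
      t.e.den * t.x.num * t.y.den * t.z.den * t.p.den * t.q.den,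
      t.e.den * t.x.den * t.y.num * t.z.den * t.p.den * t.q.den,
      t.e.den * t.x.den * t.y.den * t.z.num * t.p.den * t.q.den,
      t.e.den * t.x.den * t.y.den * t.z.den * t.p.num * t.q.den,
      t.e.den * t.x.den * t.y.den * t.z.den * t.p.den * t.q.num⟩, ?_⟩
    rw [B6.map_apply]
    ext
    · simp only [B6.mul_e]; push_cast; simp only [eq_intCast, Int.cast_mul, Int.cast_natCast]
      nth_rewrite 1 [← Rat.mul_den_eq_num t.e]; ring
    · simp only [B6.mul_x]; push_cast; simp only [eq_intCast, Int.cast_mul, Int.cast_natCast]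
      nth_rewrite 1 [← Rat.mul_den_eq_num t.x]; ring
    · simp only [B6.mul_y]; push_cast; simp only [eq_intCast, Int.cast_mul, Int.cast_natCast]
      nth_rewrite 1 [← Rat.mul_den_eq_num t.y]; ring
    · simp only [B6.mul_z]; push_cast; simp only [eq_intCast, Int.cast_mul, Int.cast_natCast]
      nth_rewrite 1 [← Rat.mul_den_eq_num t.z]; ring
    · simp only [B6.mul_p]; push_cast; simp only [eq_intCast, Int.cast_mul, Int.cast_natCast]
      nth_rewrite 1 [← Rat.mul_den_eq_num t.p]; ring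
    · simp only [B6.mul_q]; push_cast; simp only [eq_intCast, Int.cast_mul, Int.cast_natCast]
      nth_rewrite 1 [← Rat.mul_den_eq_num t.q]; ring
  red S hS t h := by
    have h' : ∀ i ∈ S, ∃ m : ℕ, ¬ pr i ∣ m ∧ ∃ b : B6 ℤ,
        (m : ℚ) * t.e = (pr i : ℚ) * b.e ∧ (m : ℚ) * t.x = (pr i : ℚ) * b.x ∧
        (m : ℚ) * t.y = (pr i : ℚ) * b.y ∧ (m : ℚ) * t.z = (pr i : ℚ) * b.z ∧
        (m : ℚ) * t.p = (pr i : ℚ) * b.p ∧ (m : ℚ) * t.q = (pr i : ℚ) * b.q := by
      intro i hi
      obtain ⟨m, hm, s, ⟨b, rfl⟩, hs⟩ := h i hi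
      refine ⟨m, hm, b, ?_⟩
      rw [B6.natCast_eq, B6.natCast_eq, B6.map_apply, B6.ext_iff] at hs
      simpa using hs
    ext
    · exact rat_zero_of_inf hS (fun i hi => by
        obtain ⟨m, hm, b, h1, -⟩ := h' i hi; exact ⟨m, hm, _, h1⟩)
    · exact rat_zero_of_inf hS (fun i hi => by
        obtain ⟨m, hm, b, -, h1, -⟩ := h' i hi; exact ⟨m, hm, _, h1⟩)
    · exact rat_zero_of_inf hS (fun i hi => by
        obtain ⟨m, hm, b, -, -, h1, -⟩ := h' i hi; exact ⟨m, hm, _, h1⟩)
    · exact rat_zero_of_inf hS (fun i hi => by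
        obtain ⟨m, hm, b, -, -, -, h1, -⟩ := h' i hi; exact ⟨m, hm, _, h1⟩)
    · exact rat_zero_of_inf hS (fun i hi => by
        obtain ⟨m, hm, b, -, -, -, -, h1, -⟩ := h' i hi; exact ⟨m, hm, _, h1⟩)
    · exact rat_zero_of_inf hS (fun i hi => by
        obtain ⟨m, hm, b, -, -, -, -, -, h1⟩ := h' i hi; exact ⟨m, hm, _, h1⟩)
  gen r hr := by
    obtain ⟨b, rfl⟩ := hr
    have hk : ∀ k : Fin 5, basis k ∈ AddSubgroup.closure ({1} ∪ Set.range cc) := by
      intro k
      apply AddSubgroup.subset_closure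
      right
      refine ⟨k, ?_⟩
      rw [cc]
      congr 1
      apply Fin.ext
      simp [Fin.ofNat, Nat.mod_eq_of_lt k.2]
    have h1 : (1 : B6 ℚ) ∈ AddSubgroup.closure ({1} ∪ Set.range cc) :=
      AddSubgroup.subset_closure (Or.inl rfl)
    have hsum : B6.map (Int.castRingHom ℚ) b = b.e • (1 : B6 ℚ) + b.x • basis 0 + b.y • basis 1 +
        b.z • basis 2 + b.p • basis 3 + b.q • basis 4 := by
      have hz : ∀ (n : ℤ) (v : B6 ℚ), n • v = ⟨n * v.e, n * v.x, n * v.y, n * v.z, n * v.p, n * v.q⟩ := by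
        intro n v
        have hn : ∀ (n : ℕ) (v : B6 ℚ),
            n • v = ⟨n * v.e, n * v.x, n * v.y, n * v.z, n * v.p, n * v.q⟩ := by
          intro n v
          rw [nsmul_eq_mul, B6.natCast_eq]
          ext <;> simp
        rcases Int.eq_nat_or_neg n with ⟨m, rfl | rfl⟩
        · rw [natCast_zsmul, hn]; ext <;> simp
        · rw [neg_smul, natCast_zsmul, hn]; ext <;> simp
      simp only [hz, B6.map_apply, basis]
      ext <;> simp
    rw [hsum]
    exact add_mem (add_mem (add_mem (add_mem (add_mem (zsmul_mem h1 _) (zsmul_mem (hk 0) _))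
      (zsmul_mem (hk 1) _)) (zsmul_mem (hk 2) _)) (zsmul_mem (hk 3) _)) (zsmul_mem (hk 4) _)
  inf := cc_inf

/-- The group of the example. -/
abbrev G : Type := grp B6.intB cc

theorem torsionFree : TorsionFree G := by
  intro n a hn h
  apply Subtype.ext
  have h1 := congrArg Subtype.val h
  rw [AddSubgroup.coe_nsmul, nsmul_eq_mul] at h1
  apply natCast_cancel hn
  rw [h1]
  exact (mul_zero _).symm

/-- Every endomorphism `g` with `g² = n g` is `0` or `n`. -/
theorem quasi_idem {g : AddMonoid.End G} {n : ℕ} (hn : 0 < n) (h : ∀ v : G, g (g v) = n • g v) :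
    (∀ v : G, g v = 0) ∨ (∀ v : G, g v = n • v) := by
  obtain ⟨a, ha⟩ := data.exists_mul g
  -- `a / n` is an idempotent
  obtain ⟨e, he⟩ : ∃ e : B6 ℚ, e = algebraMap ℚ (B6 ℚ) ((n : ℚ)⁻¹) * a := ⟨_, rfl⟩
  have hne : (n : B6 ℚ) * e = a := by
    rw [he, ← mul_assoc, ← map_natCast (algebraMap ℚ (B6 ℚ)) n, ← map_mul,
      mul_inv_cancel₀ (by exact_mod_cast hn.ne'), map_one, one_mul]
  obtain ⟨o, ho⟩ : ∃ o : G, (o : B6 ℚ) = 1 := ⟨⟨1, data.mem_grp B6.intB.one_mem⟩, rfl⟩
  have h1 : a * a = (n : B6 ℚ) * a := by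
    have := congrArg Subtype.val (h o)
    rw [ha, ha, AddSubgroup.coe_nsmul, ha, ho, mul_one, nsmul_eq_mul] at this
    exact this
  have h2 : e * e = e := by
    apply natCast_cancel hn
    apply natCast_cancel hn
    have e1 : (n : B6 ℚ) * ((n : B6 ℚ) * (e * e)) = a * a := by
      rw [← hne]
      have : (n : B6 ℚ) * e * ((n : B6 ℚ) * e) = (n : B6 ℚ) * (e * (n : B6 ℚ)) * e := by
        simp only [mul_assoc]
      rw [this, ← Nat.cast_comm]
      simp only [mul_assoc]
    rw [e1, h1, hne]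
  rcases B6.idem h2 with h3 | h3
  · left
    intro v
    apply Subtype.ext
    rw [ha, ← hne, h3, mul_zero, zero_mul]
    rfl
  · right
    intro v
    apply Subtype.ext
    rw [ha, ← hne, h3, mul_one, AddSubgroup.coe_nsmul, nsmul_eq_mul]

theorem stronglyIndecomposable : StronglyIndecomposable G := by
  constructor
  · refine ⟨⟨1, data.mem_grp B6.intB.one_mem⟩, ?_⟩
    intro h
    have := congrArg Subtype.val h
    exact one_ne_zero (congrArg B6.e this)
  · intro B C n hn hBC hsum
    -- the decomposition `n a = b + c` is unique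
    have huniq : ∀ b ∈ B, ∀ b' ∈ B, ∀ c ∈ C, ∀ c' ∈ C, b + c = b' + c' → b = b' := by
      intro b hb b' hb' c hc c' hc' h
      have h1 : b - b' = c' - c := by
        rw [sub_eq_sub_iff_add_eq_add, h, add_comm]
      have h2 : b - b' ∈ B ⊓ C := ⟨B.sub_mem hb hb', by rw [h1]; exact C.sub_mem hc' hc⟩
      rw [hBC] at h2
      exact sub_eq_zero.mp h2
    have hex : ∀ a : G, ∃ b ∈ B, ∃ c ∈ C, b + c = n • a := fun a =>
      AddSubgroup.mem_sup.mp (hsum a)
    choose f hfB k hkC hfk using hex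
    let g : AddMonoid.End G :=
      { toFun := f
        map_zero' := by
          apply huniq _ (hfB 0) _ B.zero_mem _ (hkC 0) _ C.zero_mem
          rw [hfk, smul_zero, add_zero]
        map_add' := by
          intro v w
          apply huniq _ (hfB _) _ (B.add_mem (hfB v) (hfB w)) _ (hkC _) _
            (C.add_mem (hkC v) (hkC w))
          rw [hfk, smul_add, ← hfk v, ← hfk w]
          abel }
    have hgB : ∀ b ∈ B, g b = n • b := by
      intro b hb
      apply huniq _ (hfB b) _ (B.nsmul_mem hb n) _ (hkC b) _ C.zero_mem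
      rw [hfk, add_zero]
    have hgC : ∀ c ∈ C, g c = 0 := by
      intro c hc
      apply huniq _ (hfB c) _ B.zero_mem _ (hkC c) _ (C.nsmul_mem hc n)
      rw [hfk, zero_add]
    rcases quasi_idem hn (g := g) (fun v => hgB _ (hfB v)) with h | h
    · left
      rw [AddSubgroup.eq_bot_iff_forall]
      intro b hb
      have := hgB b hb
      rw [h] at this
      exact torsionFree n b hn this.symm
    · right
      rw [AddSubgroup.eq_bot_iff_forall]
      intro c hc
      have := hgC c hc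
      rw [h] at this
      exact torsionFree n c hn this

/-! ### The rank -/

theorem rank_G : Module.rank ℤ G = 6 := by
  have hprodZ : Module.rank ℤ (ℤ × ℤ × ℤ × ℤ × ℤ × ℤ) = 6 := by
    simp only [rank_prod', Module.rank_self]
    norm_num
  have hprodQ : Module.rank ℤ (ℚ × ℚ × ℚ × ℚ × ℚ × ℚ) = 6 := by
    rw [← IsLocalization.rank_eq ℚ (nonZeroDivisors ℤ) le_rfl]
    simp only [rank_prod', Module.rank_self]
    norm_num
  apply le_antisymm
  · let f : G →+ (ℚ × ℚ × ℚ × ℚ × ℚ × ℚ) :=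
      (B6.addEquiv (k := ℚ)).toAddMonoidHom.comp (grp B6.intB cc).subtype
    have hf : Function.Injective f.toIntLinearMap := by
      intro v w h
      exact Subtype.ext ((B6.addEquiv (k := ℚ)).injective h)
    have := LinearMap.rank_le_of_injective _ hf
    rwa [hprodQ] at this
  · let g : (ℤ × ℤ × ℤ × ℤ × ℤ × ℤ) →+ G :=
      { toFun := fun b => ⟨B6.map (Int.castRingHom ℚ) ((B6.addEquiv (k := ℤ)).symm b),
          data.mem_grp ⟨_, rfl⟩⟩
        map_zero' := by
          apply Subtype.ext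
          change B6.map (Int.castRingHom ℚ) ((B6.addEquiv (k := ℤ)).symm 0) = 0
          rw [map_zero, map_zero]
        map_add' := by
          intro v w
          apply Subtype.ext
          change B6.map (Int.castRingHom ℚ) ((B6.addEquiv (k := ℤ)).symm (v + w)) =
            B6.map (Int.castRingHom ℚ) ((B6.addEquiv (k := ℤ)).symm v) +
            B6.map (Int.castRingHom ℚ) ((B6.addEquiv (k := ℤ)).symm w)
          rw [map_add, map_add] }
    have hg : Function.Injective g.toIntLinearMap := by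
      intro v w h
      have h1 := congrArg Subtype.val h
      exact (B6.addEquiv (k := ℤ)).symm.injective
        (B6.map_injective (RingHom.injective_int (Int.castRingHom ℚ)) h1)
    have := LinearMap.rank_le_of_injective _ hg
    rwa [hprodZ] at this

theorem rank_tensor : Module.rank ℚ (ℚ ⊗[ℤ] G) = 6 := by
  have : IsLocalizedModule (nonZeroDivisors ℤ) (TensorProduct.mk ℤ ℚ G 1) :=
    (isLocalizedModule_iff_isBaseChange (nonZeroDivisors ℤ) ℚ _).mpr
      (TensorProduct.isBaseChange ℤ G ℚ)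
  have h1 := IsLocalizedModule.rank_eq (nonZeroDivisors ℤ) le_rfl (TensorProduct.mk ℤ ℚ G 1)
  have h2 := IsLocalization.rank_eq (N := ℚ ⊗[ℤ] G) ℚ (nonZeroDivisors ℤ) le_rfl
  rw [h2, ← rank_G, ← h1]
  congr!

/-- **A strongly indecomposable torsion-free abelian group of rank six with noncommutative
centrally essential endomorphism ring.** -/
theorem result : ∃ (A : Type) (_ : AddCommGroup A), TorsionFree A ∧
    Module.rank ℚ (ℚ ⊗[ℤ] A) = 6 ∧ StronglyIndecomposable A ∧
    (∃ f g : AddMonoid.End A, f * g ≠ g * f) ∧ CentrallyEssential (AddMonoid.End A) := by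
  have e : AddMonoid.End G ≃+* mulRing B6.intB cc :=
    (RingEquiv.ofBijective (mulHom B6.intB cc) data.bijective).symm
  have hRO : B6.intB ≤ mulRing B6.intB cc := fun a ha v hv => Data.mul_mem_grp ha hv
  refine ⟨G, inferInstance, torsionFree, rank_tensor, stronglyIndecomposable, ?_, ?_⟩
  · have hx : (⟨0, 1, 0, 0, 0, 0⟩ : B6 ℚ) ∈ B6.intB :=
      ⟨⟨0, 1, 0, 0, 0, 0⟩, by rw [B6.map_apply]; simp⟩
    have hy : (⟨0, 0, 1, 0, 0, 0⟩ : B6 ℚ) ∈ B6.intB :=
      ⟨⟨0, 0, 1, 0, 0, 0⟩, by rw [B6.map_apply]; simp⟩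
    refine ⟨e.symm ⟨_, hRO hx⟩, e.symm ⟨_, hRO hy⟩, ?_⟩
    intro h
    have h1 := congrArg e h
    rw [map_mul, map_mul, e.apply_symm_apply, e.apply_symm_apply] at h1
    have h2 := congrArg Subtype.val h1
    have h3 := congrArg B6.p h2
    simp at h3
  · apply centrallyEssential_congr e
    apply centrallyEssential_of B6.intB _ hRO (fun a _ => data.mult a)
    rintro r ⟨b, hb⟩ hr0
    have hb0 : b ≠ 0 := by
      rintro rfl
      rw [map_zero] at hb
      exact hr0 hb.symm
    obtain ⟨x, hx, y, hy, hx0, hy0, hxy⟩ := B6.ess b hb0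
    have hinj : Function.Injective (B6.map (Int.castRingHom ℚ)) :=
      B6.map_injective (RingHom.injective_int (Int.castRingHom ℚ))
    have hcen : ∀ c ∈ Subring.center (B6 ℤ), ∀ v : B6 ℚ,
        v * B6.map (Int.castRingHom ℚ) c = B6.map (Int.castRingHom ℚ) c * v := by
      intro c hc v
      rw [B6.mem_center_iff] at hc
      have : B6.map (Int.castRingHom ℚ) c ∈ Subring.center (B6 ℚ) := by
        rw [B6.mem_center_iff, B6.map_apply]
        simp [hc.1, hc.2]
      exact Subring.mem_center_iff.mp this v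
    refine ⟨_, ⟨x, rfl⟩, _, ⟨y, rfl⟩, fun t _ => hcen x hx t, fun t _ => hcen y hy t, ?_, ?_, ?_⟩
    · intro h
      apply hx0
      apply hinj
      rw [map_zero]
      exact h
    · intro h
      apply hy0
      apply hinj
      rw [map_zero]
      exact h
    · rw [← hb, ← hxy, map_mul]

end Pool.Agent.Results.MP_7bf690_al.RankSix
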